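import Mathlib
import Pool.Agent.MP_815c6c_an.P.Basic

/-! Planar p-harmonic functions: the algebra behind the exponent one third. -/

set_option autoImplicit false

namespace Pool.Agent.MP_815c6c_an.U

open Complex Pool.Agent.MP_815c6c_an.P
open scoped ComplexConjugate

lemma nsq (a b : ℝ) {u v : ℂ} (hu : ‖u‖ = 1) (hv : ‖v‖ = 1) :
    ‖a * u - b * v‖ ^ 2 = (a - b) ^ 2 + 2 * (a * b) * (1 - (u * conj v).re) := by
  have h1 : u.re ^ 2 + u.im ^ 2 = 1 := by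
    have := Complex.sq_norm u
    rw [hu, normSq_apply] at this
    linarith
  have h2 : v.re ^ 2 + v.im ^ 2 = 1 := by
    have := Complex.sq_norm v
    rw [hv, normSq_apply] at this
    linarith
  rw [Complex.sq_norm, normSq_apply]
  simp only [sub_re, mul_re, ofReal_re, ofReal_im, sub_im, mul_im, conj_re, conj_im]
  linear_combination a ^ 2 * h1 + b ^ 2 * h2

lemma t3_polar {a : ℝ} (ha : 0 ≤ a) {u : ℂ} (hu : ‖u‖ = 1) : T3 (a * u) = a * conj u ^ 3 := by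
  rcases ha.eq_or_lt with rfl | h
  · simp [T3]
  have : (a : ℂ) ≠ 0 := ofReal_ne_zero.2 h.ne'
  simp only [T3, norm_mul, hu, norm_real, Real.norm_eq_abs, abs_of_pos h, map_mul, conj_ofReal]
  push_cast
  field_simp

lemma re_cube {z : ℂ} (hz : ‖z‖ = 1) : (conj z ^ 3).re = 4 * z.re ^ 3 - 3 * z.re := by
  have h1 : z.re ^ 2 + z.im ^ 2 = 1 := by
    have := Complex.sq_norm z
    rw [hz, normSq_apply] at this
    linarith
  simp only [pow_succ, pow_zero, one_mul, mul_re, mul_im, conj_re, conj_im]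
  linear_combination (-3 * z.re) * h1

lemma poly {e y A : ℝ} (he : 0 ≤ e) (hy : 0 ≤ y) (hA : y ≤ 2 * A) :
    (e + y) ^ 3 * (e * (e + 3 * A) ^ 2 + 2 * A ^ 2 * y) ≤
      16 * (e * (e + 3 * A) ^ 2 + A * y ^ 2) ^ 2 := by
  have A0 : 0 ≤ A := by linarith
  have h0 : 0 ≤ e * (e + 3 * A) ^ 2 := by positivity
  have h1 : 0 ≤ A * y ^ 2 := by positivity
  rcases le_total y e with h | h
  · have a1 : (e + y) ^ 3 ≤ (2 * e) ^ 3 := by gcongr; linarith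
    have a2 : 2 * A ^ 2 * y ≤ e * (e + 3 * A) ^ 2 := by
      have : A ^ 2 * y ≤ A ^ 2 * e := by gcongr
      nlinarith [mul_nonneg he (mul_nonneg he A0), mul_nonneg he (sq_nonneg e),
        mul_nonneg he (sq_nonneg A)]
    have a3 : e ^ 3 ≤ e * (e + 3 * A) ^ 2 := by
      rw [pow_succ' e 2]
      gcongr
      linarith
    calc _ ≤ (2 * e) ^ 3 * (2 * (e * (e + 3 * A) ^ 2)) := by gcongr; linarith
      _ = 16 * (e ^ 3 * (e * (e + 3 * A) ^ 2)) := by ring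
      _ ≤ 16 * ((e * (e + 3 * A) ^ 2) * (e * (e + 3 * A) ^ 2)) := by gcongr
      _ ≤ _ := by nlinarith
  · have a1 : (e + y) ^ 3 ≤ (2 * y) ^ 3 := by gcongr; linarith
    have a2 : y ^ 3 ≤ 2 * (A * y ^ 2) := by nlinarith [sq_nonneg y]
    calc _ ≤ (2 * y) ^ 3 * (e * (e + 3 * A) ^ 2 + 2 * A ^ 2 * y) := by gcongr
      _ = 8 * (y ^ 3 * (e * (e + 3 * A) ^ 2)) + 16 * (A * y ^ 2) ^ 2 := by ring
      _ ≤ 8 * (2 * (A * y ^ 2) * (e * (e + 3 * A) ^ 2)) + 16 * (A * y ^ 2) ^ 2 := by gcongr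
      _ ≤ _ := by nlinarith

/-- the two point inequality controls the cubic roots -/
lemma cubic {a b t : ℝ} (ha : 0 ≤ a) (hb : 0 ≤ b) {u v : ℂ} (hu : ‖u‖ = 1) (hv : ‖v‖ = 1)
    (h : ‖(a ^ 3 : ℝ) * u - (b ^ 3 : ℝ) * v‖ -
      ‖T3 ((a ^ 3 : ℝ) * u) - T3 ((b ^ 3 : ℝ) * v)‖ / 3 ≤ t) :
    ((a - b) ^ 2 + a * b * (1 - (u * conj v).re)) ^ 3 ≤ 81 * t ^ 2 := by
  have n1 : ‖u * conj v‖ = 1 := by simp [hu, hv]
  have c1 := (abs_le.1 ((abs_re_le_norm (u * conj v)).trans n1.le))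
  have d1 := nsq (a ^ 3) (b ^ 3) hu hv
  have d2 := nsq (a ^ 3) (b ^ 3) (u := conj u ^ 3) (v := conj v ^ 3) (by simp [hu]) (by simp [hv])
  rw [show conj u ^ 3 * conj (conj v ^ 3) = conj (u * conj v) ^ 3 by simp [mul_pow], re_cube n1,
    ← t3_polar (by positivity) hu, ← t3_polar (by positivity) hv] at d2
  generalize (u * conj v).re = c at *
  have D0 := norm_nonneg ((a ^ 3 : ℝ) * u - (b ^ 3 : ℝ) * v)
  have T0 := norm_nonneg (T3 ((a ^ 3 : ℝ) * u) - T3 ((b ^ 3 : ℝ) * v))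
  generalize ‖((a ^ 3 : ℝ) : ℂ) * u - (b ^ 3 : ℝ) * v‖ = D at *
  generalize ‖T3 ((a ^ 3 : ℝ) * u) - T3 ((b ^ 3 : ℝ) * v)‖ = T at *
  have A0 : 0 ≤ a * b := mul_nonneg ha hb
  have y0 : 0 ≤ a * b * (1 - c) := mul_nonneg A0 (by linarith)
  have key := poly (e := (a - b) ^ 2) (y := a * b * (1 - c)) (A := a * b) (sq_nonneg _) y0
    (by nlinarith)
  have e1 : (a - b) ^ 2 * ((a - b) ^ 2 + 3 * (a * b)) ^ 2 + 2 * (a * b) ^ 2 * (a * b * (1 - c)) =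
      D ^ 2 := by rw [d1]; ring
  have q0 : 0 ≤ (a - b) ^ 2 * ((a - b) ^ 2 + 3 * (a * b)) ^ 2 + a * b * (a * b * (1 - c)) ^ 2 := by
    positivity
  have e2 : 8 / 9 * ((a - b) ^ 2 * ((a - b) ^ 2 + 3 * (a * b)) ^ 2 +
      a * b * (a * b * (1 - c)) ^ 2) ≤ D ^ 2 - T ^ 2 / 9 := by
    have : 0 ≤ (a * b) ^ 3 * (1 - c) ^ 2 * (1 + c) := by
      have : 0 ≤ 1 + c := by linarith
      positivity
    rw [d1, d2]
    nlinarith
  rw [e1] at key
  generalize (a - b) ^ 2 * ((a - b) ^ 2 + 3 * (a * b)) ^ 2 + a * b * (a * b * (1 - c)) ^ 2 = Q at *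
  have hT : T / 3 ≤ D := by nlinarith
  have t0 : 0 ≤ t := by linarith
  have e3 : Q ≤ 9 / 4 * t * D := by nlinarith
  rcases D0.eq_or_lt with h0 | h0
  · subst h0
    have n0 : (a - b) ^ 2 + a * b * (1 - c) = 0 := by
      have f1 : 0 ≤ (a - b) ^ 2 * ((a - b) ^ 2 + 3 * (a * b)) ^ 2 := by positivity
      have f2 : 0 ≤ 2 * (a * b) ^ 2 * (a * b * (1 - c)) := by positivity
      have g1 : (a - b) ^ 2 * ((a - b) ^ 2 + 3 * (a * b)) ^ 2 = 0 := by nlinarith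
      have g2 : 2 * (a * b) ^ 2 * (a * b * (1 - c)) = 0 := by nlinarith
      have k1 : (a - b) ^ 2 = 0 := by
        rcases mul_eq_zero.1 g1 with k | k
        · exact k
        · nlinarith [pow_eq_zero_iff (two_ne_zero) |>.1 k, sq_nonneg (a - b)]
      have k2 : a * b * (1 - c) = 0 := by
        rcases mul_eq_zero.1 g2 with k | k
        · rw [show a * b = 0 by nlinarith [sq_nonneg (a * b)], zero_mul]
        · exact k
      rw [k1, k2, add_zero]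
    rw [n0]
    nlinarith [sq_nonneg t]
  · have e4 : Q ^ 2 ≤ (9 / 4 * t * D) ^ 2 := by gcongr
    refine le_of_mul_le_mul_right ?_ (pow_pos h0 2)
    nlinarith

/-- powers with exponent between one and three are Lipschitz on the unit interval -/
lemma rp {q a b : ℝ} (q1 : 1 ≤ q) (q3 : q ≤ 3) (ha : a ∈ Set.Icc (0 : ℝ) 1)
    (hb : b ∈ Set.Icc (0 : ℝ) 1) : |a ^ q - b ^ q| ≤ 3 * |a - b| := by
  have := (convex_Icc (0 : ℝ) 1).norm_image_sub_le_of_norm_hasDerivWithin_le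
    (f := fun s => s ^ q) (f' := fun s => q * s ^ (q - 1)) (C := 3)
    (fun s _ => (Real.hasDerivAt_rpow_const (Or.inr q1)).hasDerivWithinAt)
    (fun s hs => by
      rw [Real.norm_eq_abs, abs_of_nonneg (mul_nonneg (by linarith) (Real.rpow_nonneg hs.1 _))]
      nlinarith [Real.rpow_le_one hs.1 hs.2 (sub_nonneg.2 q1), Real.rpow_nonneg hs.1 (q - 1)])
    hb ha
  simpa using this

lemma polar (w : ℂ) : ∃ u : ℂ, ‖u‖ = 1 ∧ w = ‖w‖ * u :=
  ⟨exp (arg w * I), norm_exp_ofReal_mul_I _, (norm_mul_exp_arg_mul_I w).symm⟩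

/-- the estimate for the gradients -/
theorem third {c M t : ℝ} (c1 : 1 ≤ c) (c3 : c ≤ 3) (hM : 0 < M) {x y : ℂ} (hx : ‖x‖ ≤ M)
    (hy : ‖y‖ ≤ M) (h : ‖pw (c - 1) x - pw (c - 1) y‖ -
      ‖T3 (pw (c - 1) x) - T3 (pw (c - 1) y)‖ / 3 ≤ M ^ c * t) (ht : 0 ≤ t) :
    ‖x - y‖ ^ 3 ≤ 243 * M ^ 3 * t := by
  have c0 : 0 < c := by linarith
  have Mc : 0 < M ^ c := Real.rpow_pos_of_pos hM c
  have rep : ∀ x : ℂ, ‖x‖ ≤ M → ∃ (a : ℝ) (u : ℂ), a ∈ Set.Icc (0 : ℝ) 1 ∧ ‖u‖ = 1 ∧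
      x = M * ((a ^ (3 / c) : ℝ) * u) ∧ pw (c - 1) x = (M ^ c * a ^ 3 : ℝ) * u := by
    intro x hx
    obtain ⟨u, hu, e⟩ := polar x
    have s0 : 0 ≤ ‖x‖ / M := by positivity
    refine ⟨(‖x‖ / M) ^ (c / 3), u, ⟨by positivity,
      Real.rpow_le_one s0 ((div_le_one hM).2 hx) (by positivity)⟩, hu, ?_, ?_⟩
    · rw [← Real.rpow_mul s0, show c / 3 * (3 / c) = 1 by field_simp, Real.rpow_one]
      have : (M : ℂ) ≠ 0 := ofReal_ne_zero.2 hM.ne'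
      push_cast
      field_simp
      exact e
    · rw [← Real.rpow_natCast, ← Real.rpow_mul s0, show c / 3 * (3 : ℕ) = c by push_cast; ring,
        Real.div_rpow (norm_nonneg _) hM.le, mul_div_cancel₀ _ Mc.ne', pw]
      nth_rewrite 2 [e]
      rw [← mul_assoc, ← ofReal_mul, ← Real.rpow_add_one' (norm_nonneg _) (by linarith),
        sub_add_cancel]
  obtain ⟨a, u, ha, hu, e1, e2⟩ := rep x hx
  obtain ⟨b, v, hb, hv, f1, f2⟩ := rep y hy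
  have k := cubic (t := t) ha.1 hb.1 hu hv (by
    have a3 : 0 ≤ a ^ 3 := pow_nonneg ha.1 3
    have b3 : 0 ≤ b ^ 3 := pow_nonneg hb.1 3
    rw [e2, f2, t3_polar (by positivity) hu, t3_polar (by positivity) hv] at h
    rw [t3_polar a3 hu, t3_polar b3 hv]
    simp only [ofReal_mul, mul_assoc, ← mul_sub, norm_mul, norm_real, Real.norm_eq_abs,
      abs_of_pos Mc] at h
    refine le_of_mul_le_mul_left ?_ Mc
    linarith)
  have q1 : 1 ≤ 3 / c := (one_le_div c0).2 c3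
  have q3 : 3 / c ≤ 3 := div_le_self (by norm_num) c1
  have n1 : ‖u * conj v‖ = 1 := by simp [hu, hv]
  have c2 := (abs_le.1 ((abs_re_le_norm (u * conj v)).trans n1.le)).2
  have g1 : (a ^ (3 / c) - b ^ (3 / c)) ^ 2 ≤ 9 * (a - b) ^ 2 := by
    rw [← sq_abs, ← sq_abs (a - b)]
    nlinarith [rp q1 q3 ha hb, abs_nonneg (a ^ (3 / c) - b ^ (3 / c))]
  have g2 : a ^ (3 / c) * b ^ (3 / c) ≤ a * b :=
    mul_le_mul (Real.rpow_le_self_of_le_one ha.1 ha.2 q1)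
      (Real.rpow_le_self_of_le_one hb.1 hb.2 q1) (Real.rpow_nonneg hb.1 _) ha.1
  have g3 := nsq (a ^ (3 / c)) (b ^ (3 / c)) hu hv
  rw [e1, f1, ← mul_sub, norm_mul, norm_real, Real.norm_eq_abs, abs_of_pos hM, mul_pow,
    mul_comm 243, mul_assoc]
  gcongr
  generalize ‖((a ^ (3 / c) : ℝ) : ℂ) * u - (b ^ (3 / c) : ℝ) * v‖ = d, hd : (u * conj v).re = s at *
  have g4 : d ^ 2 ≤ 9 * ((a - b) ^ 2 + a * b * (1 - s)) := by
    nlinarith [mul_le_mul_of_nonneg_right g2 (sub_nonneg.2 c2),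
      mul_nonneg (mul_nonneg ha.1 hb.1) (sub_nonneg.2 c2)]
  refine (abs_le_of_sq_le_sq' ?_ (by positivity)).2
  calc (d ^ 3) ^ 2 = (d ^ 2) ^ 3 := by ring
    _ ≤ (9 * ((a - b) ^ 2 + a * b * (1 - s))) ^ 3 := by gcongr
    _ ≤ (243 * t) ^ 2 := by nlinarith

end Pool.Agent.MP_815c6c_an.U
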