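import Mathlib
import Pool.Agent.MP_815c6c_an.P.All
import Pool.Agent.MP_815c6c_an.U.Alg

/-! Planar p-harmonic functions: a Hoelder bound with exponent one third for the gradient, with a
constant that does not depend on `p ≥ 2`. -/

set_option autoImplicit false

namespace Pool.Agent.MP_815c6c_an.U

open Set Metric MeasureTheory Filter Topology Complex Pool.Agent.MP_815c6c_an.P
open scoped ContDiff ENNReal ComplexConjugate

lemma cl {F u : ℂ → ℂ} {z w y : ℂ} {a : ℝ} (ha : 0 ≤ a) (h : Cl F z w)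
    (hu : ∀ x, ‖u x - y‖ ≤ ‖x - z‖ + a * ‖F x - w‖) : Cl u z y := fun ρ hρ e => by
  have p : 0 < ρ / (1 + a) := by positivity
  refine h _ p (measure_mono_null (fun x hx => ?_) e)
  have h1 : ‖x - z‖ < ρ / (1 + a) := mem_ball_iff_norm.1 hx.1
  have h2 := mul_le_mul_of_nonneg_left hx.2.le ha
  have h3 : ρ / (1 + a) + a * (ρ / (1 + a)) = ρ := by field_simp
  exact ⟨mem_ball_iff_norm.2 (by nlinarith), by linarith [hu x]⟩

/-- the two point inequality with an absolute constant -/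
theorem two : ∃ L : ℝ, 0 ≤ L ∧ ∀ ε : ℝ, |ε| < 1 / 3 → ∀ (F : ℂ → ℂ) (D : ℂ → M2) (R : ℝ),
    0 ≤ R → Sol ε (ball 0 3) F D → (∀ᵐ z ∂vo (ball 0 3), ‖F z‖ ≤ R) →
    ∀ x ∈ ball (0 : ℂ) (1 / 2), ∀ y ∈ ball (0 : ℂ) (1 / 2), x ≠ y → ∀ v w, Cl F x v → Cl F y w →
      ‖v - w‖ - ‖T3 v - T3 w‖ / 3 ≤ R * (L * ‖x - y‖) := by
  obtain ⟨δ, hδ, inj⟩ := P.inj kit wind line
  refine ⟨2 / δ, by positivity, fun ε hε F D R R0 s3 hR x hx y hy n v w cx cy => ?_⟩
  obtain ⟨K, hK, al⟩ := (alg pow cub).2.2.2.1 ε hε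
  obtain ⟨b, μ, hb, hμ⟩ := cub.2.2.2.2.2 ε v w (x - y) (sub_ne_zero.2 n)
  have cb := fun x y => cub.2.2.2.2.1 ε hε b x y hb
  suffices |μ| ≤ R * (2 / δ) by
    have t : ‖v - w‖ ≤ ‖Hc ε b v - Hc ε b w‖ + ‖T3 v - T3 w‖ / 3 := by
      have e : b * (v - w) = Hc ε b v - Hc ε b w - ε * conj b * (T3 v - T3 w) := by
        simp only [Hc]
        ring
      have := norm_sub_le (Hc ε b v - Hc ε b w) (ε * conj b * (T3 v - T3 w))
      rw [← e, norm_mul, norm_mul, norm_mul, RCLike.norm_conj, hb, norm_real,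
        Real.norm_eq_abs] at this
      nlinarith [norm_nonneg (T3 v - T3 w)]
    rw [hμ, norm_mul, norm_real, Real.norm_eq_abs] at t
    nlinarith [norm_nonneg (x - y)]
  refine le_of_not_gt fun g => n ?_
  have m0 : 0 < |μ| := (by positivity : 0 ≤ R * (2 / δ)).trans_lt g
  have m1 : (μ : ℂ) ≠ 0 := ofReal_ne_zero.2 (abs_pos.1 m0)
  have nm : ‖(-(μ : ℂ)⁻¹)‖ = |μ|⁻¹ := by simp
  let u : ℂ → ℂ := fun z => z + -(μ : ℂ)⁻¹ * Hc ε b (F z)
  let D' : ℂ → M2 := fun z => (ml (-(μ : ℂ)⁻¹)).comp ((DH ε b (F z)).comp (D z) - ml μ)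
  have su : Sb (ball 0 3) u D' := by
    refine (kit.2.2.2.1 _ _ _ _ _ (ml (-(μ : ℂ)⁻¹ * b)) (ml (-(μ : ℂ)⁻¹ * (ε * conj b))) (ml 1)
      0 isBounded_ball s3.sb s3.t3).congr
      (Eventually.of_forall fun z => ?_) (Eventually.of_forall fun z => ?_)
    · simp only [u, ml_apply]
      rw [show Hc ε b (F z) = b * F z + ε * conj b * T3 (F z) from rfl]
      ring
    · ext1 v
      simp [D', DH]
      field_simp
  have cu : ∀ z s, Cl F z s → Cl u z (z + -(μ : ℂ)⁻¹ * Hc ε b s) := fun z s h =>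
    cl (a := |μ|⁻¹ * 2) (by positivity) h fun t => by
      rw [show u t - (z + -(μ : ℂ)⁻¹ * Hc ε b s) =
        t - z + -(μ : ℂ)⁻¹ * (Hc ε b (F t) - Hc ε b s) by simp only [u]; ring]
      refine (norm_add_le _ _).trans (add_le_add le_rfl ?_)
      rw [norm_mul, nm, mul_assoc]
      gcongr
      exact (cb _ _).2.1
  have e : y + -(μ : ℂ)⁻¹ * Hc ε b w = x + -(μ : ℂ)⁻¹ * Hc ε b v := by
    rw [← sub_eq_zero, show y + -(μ : ℂ)⁻¹ * Hc ε b w - (x + -(μ : ℂ)⁻¹ * Hc ε b v) =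
      (μ : ℂ)⁻¹ * (Hc ε b v - Hc ε b w) - (x - y) by ring, hμ, inv_mul_cancel_left₀ m1, sub_self]
  have jp : 0 < jac (ml (-(μ : ℂ)⁻¹)) := by
    rw [jac_ml, nm]
    positivity
  refine inj _ u D' (mul_nonneg (div_nonneg (sq_nonneg _) jp.le) (zero_le_one.trans hK)) su
    (s3.es.mono fun z k => (al _ b μ _ k.1 k.2).2.comp jp) ?_ x hx y hy
    _ (cu x v cx) (e ▸ cu y w cy)
  rw [setLIntegral_measure_zero]
  · exact zero_le
  rw [ae_restrict_iff' measurableSet_ball] at hR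
  refine measure_mono_null (fun z hz => ?_) (ae_iff.1 hR)
  intro k
  have a1 := (cb (F z) 0).2.1
  rw [show Hc ε b 0 = 0 by simp [Hc, T3], sub_zero, sub_zero] at a1
  have a2 := hz.2
  rw [show u z - z = -(μ : ℂ)⁻¹ * Hc ε b (F z) by simp only [u]; ring, norm_mul, nm,
    lt_inv_mul_iff₀ m0] at a2
  rw [← mul_div_assoc, div_lt_iff₀ hδ] at g
  linarith [k hz.1]

/-- weak solutions solve the first order system -/
theorem sol {ε : ℝ} (hε : |ε| < 1 / 3) {F : ℂ → ℂ} (hF : Wk ε (ball 0 8) F) :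
    ∃ D, Sol ε (ball 0 4) F D := by
  have al := alg pow cub
  have hP := eP_pos hε
  have hQ := eQ_pos hε
  have hm := NatA.one_le hε
  generalize hm' : (eP ε + eQ ε) / 2 = m at hm
  have hm0 : 0 < m := by linarith
  have ha : -1 < m - 1 := by linarith
  have e1 : 1 - (eQ ε - eP ε) / (2 * m) = eP ε / m := by
    field_simp
    linarith
  have e2 : 1 + (eQ ε - eP ε) / (2 * m) = eQ ε / m := by
    field_simp
    linarith
  generalize (eQ ε - eP ε) / (2 * m) = s at e1 e2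
  have s1 : 0 < 1 - s := e1 ▸ div_pos hP hm0
  have s2 : 0 < 1 + s := e2 ▸ div_pos hQ hm0
  have hV : MemLp (fun z => pw (m - 1) (F z)) 2 (vo (ball 0 7)) := by
    have := hF.mem (closedBall 0 7) (closedBall_subset_ball (by norm_num)) (isCompact_closedBall _ _)
    rw [hm'] at this
    exact this.mono_measure (Measure.restrict_mono ball_subset_closedBall le_rfl)
  have sub : ball (0 : ℂ) 7 ⊆ ball 0 8 := ball_subset_ball (by norm_num)
  have c1 : (-s + 1) * (m - 1 + 1) - 1 = eP ε - 1 := by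
    rw [show -s + 1 = 1 - s by ring, e1]
    field_simp
    ring
  have c2 : (s + 1) * (m - 1 + 1) - 1 = eQ ε - 1 := by
    rw [show s + 1 = 1 + s by ring, e2]
    field_simp
    ring
  have c3 : (m⁻¹ - 1 + 1) * (m - 1 + 1) - 1 = 0 := by
    field_simp
    ring
  obtain ⟨D, hD, hE⟩ := nat kit (part kit) four (wk kit mol) pow al (dq mol pow) (pt kit) s 6 7
    (fun z => pw (m - 1) (F z)) (abs_lt.2 ⟨by linarith, by linarith⟩)
    (by norm_num) hV (NatA.cu_congr (hF.cu.mono sub) fun z => by rw [pow.1 _ _ _ ha, c1])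
    (NatA.cu_congr (hF.dv.mono sub) fun z => by rw [pow.1 _ _ _ ha, c2])
  obtain ⟨D', a, b, c⟩ := low kit cac pow cub al (1 - s) (1 + s) m⁻¹ 4 6 _ D s1 s2 (inv_pos.2 hm0)
    (inv_le_one_of_one_le₀ hm) (by norm_num) hD hE
  have d1 : (1 - s) / m⁻¹ = eP ε := by
    rw [e1]
    field_simp
  have d2 : (1 + s) / m⁻¹ = eQ ε := by
    rw [e2]
    field_simp
  simp only [pow.1 _ _ _ ha, c3, pw_zero, d1, d2] at a b c
  exact ⟨D', a, b, c.mono fun z h => ⟨h.1, fun h0 => h.2 (by rw [h0, pw_at_zero])⟩⟩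

/-- values of a continuous representative are cluster values -/
lemma cl_rep {F G : ℂ → ℂ} {U : Set ℂ} (hU : IsOpen U) (hG : Continuous G) (e : G =ᵐ[vo U] F)
    {z : ℂ} (hz : z ∈ U) : Cl F z (G z) := fun ρ hρ k => by
  have o : IsOpen (U ∩ (ball z ρ ∩ G ⁻¹' ball (G z) ρ)) :=
    hU.inter (isOpen_ball.inter (isOpen_ball.preimage hG))
  rw [EventuallyEq, ae_restrict_iff' hU.measurableSet] at e
  refine (o.measure_pos volume ⟨z, hz, mem_ball_self hρ, mem_ball_self hρ⟩).ne'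
    (measure_mono_null (fun x hx => ?_) (measure_union_null k e))
  by_cases h : G x = F x
  · exact Or.inl ⟨hx.2.1, h ▸ mem_ball_iff_norm.1 hx.2.2⟩
  · exact Or.inr fun a => h (a hx.1)

lemma cl_le {F : ℂ → ℂ} {U : Set ℂ} {R : ℝ} (hU : IsOpen U) (h : ∀ᵐ z ∂vo U, ‖F z‖ ≤ R) {z w : ℂ}
    (hz : z ∈ U) (c : Cl F z w) : ‖w‖ ≤ R := by
  refine le_of_not_gt fun g => ?_
  obtain ⟨ρ, ρ0, hρ⟩ := Metric.isOpen_iff.1 hU z hz
  rw [ae_restrict_iff' hU.measurableSet] at h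
  refine c (min ρ (‖w‖ - R)) (lt_min ρ0 (sub_pos.2 g)) (measure_mono_null (fun x hx => ?_) (ae_iff.1 h))
  intro k
  have a1 := k (hρ (ball_subset_ball (min_le_left _ _) hx.1))
  have a2 := hx.2.trans_le (min_le_right _ _)
  have a3 := norm_sub_norm_le w (F x)
  rw [norm_sub_rev] at a3
  linarith

/-- the estimate on a ball of fixed size -/
theorem unit : ∃ L : ℝ, 0 ≤ L ∧ ∀ c M : ℝ, 1 ≤ c → c < 3 → 0 < M → ∀ g : ℂ → ℂ,
    Wk ((c - 1) / (c + 3)) (ball 0 8) (fun z => pw (c - 1) (g z)) →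
    (∀ᵐ z ∂vo (ball 0 8), ‖g z‖ ≤ M) → ∃ W : ℂ → ℂ, W =ᵐ[vo (ball 0 (1 / 2))] g ∧
      ∀ x ∈ ball (0 : ℂ) (1 / 2), ∀ y ∈ ball (0 : ℂ) (1 / 2),
        ‖W x - W y‖ ^ 3 ≤ L * M ^ 3 * ‖x - y‖ := by
  obtain ⟨L, L0, hL⟩ := two
  refine ⟨243 * L, by positivity, fun c M c1 c3 hM g hW hg => ?_⟩
  have c0 : 0 < c := by linarith
  have hε : |(c - 1) / (c + 3)| < 1 / 3 := by
    rw [abs_lt, lt_div_iff₀ (by linarith), div_lt_iff₀ (by linarith)]
    constructor <;> linarith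
  obtain ⟨D, so⟩ := sol hε hW
  obtain ⟨L', -, hl⟩ := lip kit four cac cub (alg pow cub) (inj kit wind line) _ hε
  obtain ⟨F, e, l⟩ := hl _ D 0 _ so (Real.sqrt_nonneg _)
    (by simpa using (Dec.lint so.sb.memLp.1).le)
  have cF : Continuous F := (LipschitzWith.of_dist_le' (K := _) fun x y => by
    rw [dist_eq_norm, dist_eq_norm]
    exact l x y).continuous
  have hR : ∀ᵐ z ∂vo (ball 0 3), ‖pw (c - 1) (g z)‖ ≤ M ^ c := by
    filter_upwards [ae_restrict_of_ae_restrict_of_subset (ball_subset_ball (by norm_num)) hg]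
      with z hz
    rw [pow.2.1 _ _ (by linarith), sub_add_cancel]
    gcongr
  have i0 : -1 < c⁻¹ - 1 := by linarith [inv_pos.2 c0]
  have i1 : ∀ w, pw (c - 1) (pw (c⁻¹ - 1) w) = w := fun w => by
    rw [pow.1 _ _ _ i0, sub_add_cancel, sub_add_cancel, mul_inv_cancel₀ c0.ne', sub_self, pw_zero]
  have i2 : ∀ w, pw (c⁻¹ - 1) (pw (c - 1) w) = w := fun w => by
    rw [pow.1 _ _ _ (by linarith), sub_add_cancel, sub_add_cancel, inv_mul_cancel₀ c0.ne',
      sub_self, pw_zero]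
  have bd : ∀ z ∈ ball (0 : ℂ) (1 / 2), ‖pw (c⁻¹ - 1) (F z)‖ ≤ M := fun z hz => by
    have := cl_le isOpen_ball hR (ball_subset_ball (by norm_num) hz) (cl_rep isOpen_ball cF e hz)
    rw [pow.2.1 _ _ i0, sub_add_cancel, Real.rpow_inv_le_iff_of_pos (norm_nonneg _) hM.le c0]
    exact this
  refine ⟨fun z => pw (c⁻¹ - 1) (F z), e.mono fun z hz => by simp only [hz, i2],
    fun x hx y hy => ?_⟩
  rcases eq_or_ne x y with rfl | n
  · simp
  have := third (t := L * ‖x - y‖) c1 c3.le hM (bd x hx) (bd y hy) (by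
    rw [i1, i1]
    exact hL _ hε _ D _ (by positivity) (so.mono (ball_subset_ball (by norm_num))) hR x hx y hy n
      _ _ (cl_rep isOpen_ball cF e hx) (cl_rep isOpen_ball cF e hy)) (by positivity)
  linarith

open FinT in
/-- the estimate in the Euclidean plane -/
theorem unif : ∃ C : ℝ, ∀ p : ℝ, 2 ≤ p → ∀ (U : Set E2) (h : E2 → ℝ) (G : E2 → E2),
    (∀ K ⊆ U, IsCompact K → MemLp h (ENNReal.ofReal p) (volume.restrict K) ∧
      MemLp G (ENNReal.ofReal p) (volume.restrict K)) →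
    (∀ φ : E2 → ℝ, ContDiff ℝ ∞ φ → HasCompactSupport φ → tsupport φ ⊆ U →
      (∀ v, ∫ x, h x * fderiv ℝ φ x v = -∫ x, φ x * inner ℝ (G x) v) ∧
      ∫ x, inner ℝ (‖G x‖ ^ (p - 2) • G x) (gradient φ x) = 0) →
    ∀ (x₀ : E2) (r M : ℝ), 0 < r → 0 < M → ball x₀ r ⊆ U →
      (∀ᵐ x ∂volume.restrict (ball x₀ r), ‖G x‖ ≤ M) →
      ∃ W : E2 → E2, W =ᵐ[volume.restrict (ball x₀ (r / 16))] G ∧
        ∀ x ∈ ball x₀ (r / 16), ∀ y ∈ ball x₀ (r / 16),
          ‖W x - W y‖ ≤ C * M * (‖x - y‖ / r) ^ (1 / 3 : ℝ) := by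
  obtain ⟨L, L0, hL⟩ := unit
  refine ⟨(8 * L) ^ (1 / 3 : ℝ), fun p p2 U h G h1 h2 x₀ r M r0 M0 hU hM => ?_⟩
  have hp : 1 < p := by linarith
  obtain ⟨c, c0, c3, hc⟩ := root hp
  have c1 : 1 ≤ c := by
    by_contra! k
    nlinarith
  have hε : |(c - 1) / (c + 3)| < 1 / 3 := by
    rw [abs_lt, lt_div_iff₀ (by linarith), div_lt_iff₀ (by linarith)]
    constructor <;> linarith
  have hP : eP ((c - 1) / (c + 3)) = 1 / c := by
    have : c + 3 ≠ 0 := by linarith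
    rw [eP, div_eq_div_iff (by linarith [(abs_lt.1 hε).1]) c0.ne']
    field_simp
    ring
  have hQ : eQ ((c - 1) / (c + 3)) = (p - 1) / c := by
    have : c + 3 ≠ 0 := by linarith
    rw [eQ, div_eq_div_iff (by linarith [(abs_lt.1 hε).2]) c0.ne']
    field_simp
    linarith
  have hw : ∀ (s : ℝ) (w : ℂ), pw (s / c - 1) (pw (c - 1) w) = pw (s - 1) w := fun s w => by
    rw [pow.1 _ _ _ (by linarith)]
    congr 1
    field_simp
    ring
  have hw' : ∀ (s : ℝ) (y : E2), pw (s / c - 1) (pw (c - 1) (j y)) = j (‖y‖ ^ (s - 1) • y) :=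
    fun s y => by rw [hw, pw_j]
  have hW : Wk ((c - 1) / (c + 3)) (e ⁻¹' U) fun z => pw (c - 1) (j (G (e z))) := by
    refine ⟨fun K a1 a2 => ?_, fun φ hφ => ?_, fun φ hφ => ?_⟩
    · have b1 := ((h1 _ (image_subset_iff.2 a1) (a2.image e.continuous)).2.comp_measurePreserving
        (mpr _)).norm_rpow_div (ENNReal.ofReal (p / 2))
      have b2 := ((h1 _ (image_subset_iff.2 a1) (a2.image e.continuous)).2.comp_measurePreserving
        (mpr _)).1
      rw [preimage_image_eq _ e.injective] at b1 b2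
      rw [← ENNReal.ofReal_div_of_pos (by linarith), show p / (p / 2) = 2 by field_simp,
        ENNReal.ofReal_ofNat, ENNReal.toReal_ofReal (by linarith)] at b1
      simp only [hP, hQ, show (1 / c + (p - 1) / c) / 2 = p / 2 / c by ring, hw]
      refine b1.of_le ((pow.2.2.1 _ (by linarith)).comp_aestronglyMeasurable
        (j.continuous.comp_aestronglyMeasurable b2)) (Eventually.of_forall fun z => ?_)
      rw [pow.2.1 _ _ (by linarith), sub_add_cancel, LinearIsometryEquiv.norm_map]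
      exact le_abs_self _
    · obtain ⟨a1, a2, a3⟩ := test hφ
      simp only [hP, hw, sub_self, pw_zero, dz_e φ, (pair _ _).2]
      rw [← curl (fun K b1 b2 => ?_) (fun φ b1 b2 b3 => (h2 φ b1 b2 b3).1) a1 a2 a3 (e 1) (e I),
        ← mp.integral_comp emb]
      have : IsFiniteMeasure (volume.restrict K) := isFiniteMeasure_restrict.2 b2.measure_ne_top
      exact (h1 K b1 b2).2.integrable (ENNReal.one_le_ofReal.2 hp.le)
    · obtain ⟨a1, a2, a3⟩ := test hφ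
      simp only [hQ, hw', dz_e φ, (pair _ _).1]
      rw [← (h2 _ a1 a2 a3).2, ← mp.integral_comp emb, show p - 1 - 1 = p - 2 by ring]
      simp only [inner_gradient_right, RCLike.conj_to_real]
  have r8 : 0 < r / 8 := by positivity
  have er : r = r / 8 * 8 := by ring
  have er' : r / 16 = r / 8 * (1 / 2) := by ring
  generalize r / 8 = s at r8 er er'
  have tr : ∀ (ρ : ℝ) (q : E2 → Prop), (∀ᵐ x ∂volume.restrict (ball x₀ (s * ρ)), q x) ↔
      ∀ᵐ z ∂vo (ball 0 ρ), q (e (e.symm x₀ + s * z)) := fun ρ q => by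
    obtain ⟨d, d0, -, k⟩ := Dec.map_sc (e.symm x₀) r8 ρ
    rw [← (mpr _).map_eq, emb.ae_map_iff, e.preimage_ball,
      ← Measure.ae_ennreal_smul_measure_iff d0, ← k, (Dec.emb _ r8).ae_map_iff]
  obtain ⟨W, a1, a2⟩ := hL c M c1 c3 M0 (fun z => j (G (e (e.symm x₀ + s * z))))
    (sca _ _ (ball 0 8) _ (e.symm x₀) s r8 (fun z hz => hU (by
      rw [er, ← mem_preimage, e.preimage_ball]
      exact (Dec.mem_sc r8).2 hz)) hW)
    (by simpa only [LinearIsometryEquiv.norm_map] using (tr 8 _).1 (er ▸ hM))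
  have s1 : (s : ℂ) ≠ 0 := ofReal_ne_zero.2 r8.ne'
  have mem : ∀ x ∈ ball x₀ (s * (1 / 2)),
      (s : ℂ)⁻¹ * (e.symm x - e.symm x₀) ∈ ball (0 : ℂ) (1 / 2) := fun x hx => by
    rw [← Dec.mem_sc (x := e.symm x₀) r8, mul_inv_cancel_left₀ s1, add_sub_cancel,
      ← e.preimage_ball]
    simpa using hx
  rw [er']
  refine ⟨fun x => j.symm (W ((s : ℂ)⁻¹ * (e.symm x - e.symm x₀))), (tr _ _).2 ?_,
    fun x hx y hy => ?_⟩
  · filter_upwards [a1] with z hz
    simp only [LinearIsometryEquiv.symm_apply_apply, add_sub_cancel_left,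
      inv_mul_cancel_left₀ s1, hz]
  · have := a2 _ (mem x hx) _ (mem y hy)
    rw [← mul_sub, sub_sub_sub_cancel_right, ← map_sub _ x y, norm_mul, norm_inv, norm_real,
      Real.norm_eq_abs, abs_of_pos r8, LinearIsometryEquiv.norm_map] at this
    simp only [← map_sub j.symm, LinearIsometryEquiv.norm_map]
    refine le_of_pow_le_pow_left₀ three_ne_zero (by positivity) (this.trans_eq ?_)
    have cu : ∀ t : ℝ, 0 ≤ t → (t ^ (1 / 3 : ℝ)) ^ 3 = t := fun t ht => by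
      rw [← Real.rpow_natCast, ← Real.rpow_mul ht]
      norm_num
    rw [mul_pow, mul_pow, cu _ (by positivity), cu _ (by positivity), er]
    field_simp

end Pool.Agent.MP_815c6c_an.U
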